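import Pool.Agent.Y294.TB2.Stm

/-!
TB2-CORE2 (project TB2 of helper294): two chains of noncircular algebraic mirrors and one vertex
between them which lies on an algebraic hypersurface. Adapted from `Pool.Agent.Y319.TB.Core2`.
-/

set_option autoImplicit false

open Set MvPolynomial H450Al
open Pool.Agent.TH746 Pool.Agent.TH746.AL

namespace Pool.Agent.Y474.TB2

open Pool.Agent.Y294.TB Pool.Agent.Y294.TB2

/-! ### Valuation rings -/

theorem alg_mem {K Ω : Type*} [Field K] [Field Ω] [Algebra K Ω] (B : ValuationSubring Ω)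
    (h : ∀ a : K, algebraMap K Ω a ∈ B) (y : Ω) (hy : IsAlgebraic K y) : y ∈ B := by
  obtain ⟨p, hp, hpy⟩ := hy.isIntegral
  set φ : K →+* B := (algebraMap K Ω).codRestrict B.toSubring h
  have hint : IsIntegral B y := by
    refine ⟨p.map φ, hp.map φ, ?_⟩
    rw [Polynomial.eval₂_map]
    have : (algebraMap B Ω).comp φ = algebraMap K Ω := RingHom.ext fun a => rfl
    rw [this]; exact hpy
  obtain ⟨z, hz⟩ := IsIntegrallyClosed.isIntegral_iff.1 hint
  rw [← hz]; exact z.2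

section val

variable {Ω : Type*} [Field Ω] (B : ValuationSubring Ω)

theorem nu_add {a b : Ω} (ha : a ∈ B.nonunits) (hb : b ∈ B.nonunits) : a + b ∈ B.nonunits := by
  rw [ValuationSubring.mem_nonunits_iff] at *
  exact lt_of_le_of_lt (Valuation.map_add _ _ _) (max_lt ha hb)

theorem nu_neg {a : Ω} (ha : a ∈ B.nonunits) : -a ∈ B.nonunits := by
  rw [ValuationSubring.mem_nonunits_iff] at *
  rwa [Valuation.map_neg]

theorem nu_sub {a b : Ω} (ha : a ∈ B.nonunits) (hb : b ∈ B.nonunits) : a - b ∈ B.nonunits := by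
  rw [sub_eq_add_neg]
  exact nu_add B ha (nu_neg B hb)

theorem nu_mul {a b : Ω} (ha : a ∈ B) (hb : b ∈ B.nonunits) : a * b ∈ B.nonunits := by
  rw [← ValuationSubring.valuation_le_one_iff] at ha
  rw [ValuationSubring.mem_nonunits_iff] at *
  rw [map_mul]
  exact mul_lt_one_of_nonneg_of_lt_one_right ha zero_le hb

theorem nu_zero : (0 : Ω) ∈ B.nonunits := by
  rw [ValuationSubring.mem_nonunits_iff, map_zero]
  exact zero_lt_one

theorem nu_sum {ι : Type*} (S : Finset ι) (f : ι → Ω) (h : ∀ i ∈ S, f i ∈ B.nonunits) :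
    ∑ i ∈ S, f i ∈ B.nonunits := by
  classical
  induction S using Finset.induction_on with
  | empty =>
    rw [Finset.sum_empty]
    exact nu_zero B
  | insert a S ha ih =>
    rw [Finset.sum_insert ha]
    exact nu_add B (h a (Finset.mem_insert_self a S))
      (ih fun i hi => h i (Finset.mem_insert_of_mem hi))

theorem inv_of_unit {a : Ω} (ha : a ∉ B.nonunits) : a⁻¹ ∈ B := by
  rw [ValuationSubring.mem_nonunits_iff_or] at ha
  push Not at ha
  exact ha.2

theorem ne_of_unit {a : Ω} (ha : a ∉ B.nonunits) : a ≠ 0 := by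
  rintro rfl
  exact ha (nu_zero B)

theorem unit_of_close {z z' : Ω} (hz : z ∉ B.nonunits) (h : z' - z ∈ B.nonunits) :
    z' ∉ B.nonunits := by
  intro h1
  apply hz
  have h2 := nu_sub B h1 h
  rwa [sub_sub_cancel] at h2

theorem mem_of_close {z z' : Ω} (hz : z ∈ B) (h : z' - z ∈ B.nonunits) : z' ∈ B := by
  have h1 := add_mem (B.nonunits_subset h) hz
  rwa [sub_add_cancel] at h1

theorem div_close {x x' z z' : Ω} (hx : x ∈ B) (hzu : z ∉ B.nonunits)
    (hxx : x' - x ∈ B.nonunits) (hzz : z' - z ∈ B.nonunits) :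
    x' / z' - x / z ∈ B.nonunits := by
  have hzu' := unit_of_close B hzu hzz
  have h0 := ne_of_unit B hzu
  have h0' := ne_of_unit B hzu'
  have h1 : x' / z' - x / z = z'⁻¹ * ((x' - x) - (x * z⁻¹) * (z' - z)) := by
    field_simp
    ring
  rw [h1]
  exact nu_mul B (inv_of_unit B hzu') (nu_sub B hxx (nu_mul B (mul_mem hx (inv_of_unit B hzu)) hzz))

theorem resInd_iff {K : Type*} [Field K] [Algebra K Ω] [Algebra K B] [IsScalarTower K B Ω]
    {r : ℕ} (y : Fin r → B) : ResInd K B (fun i => (y i : Ω)) ↔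
      AlgebraicIndependent K (fun i => IsLocalRing.residue B (y i)) := by
  rw [algebraicIndependent_iff]
  unfold ResInd
  constructor
  · rintro ⟨-, h⟩ f hf
    by_contra hf0
    apply h f hf0
    rw [aeval_res (k := K) B, res_eq_zero_iff, ← aeval_coe (k := K) B] at hf
    exact hf
  · intro h
    refine ⟨fun i => (y i).2, fun f hf hn => hf (h f ?_)⟩
    rw [aeval_res (k := K) B, res_eq_zero_iff, ← aeval_coe (k := K) B]
    exact hn

end val

/-! ### Orthogonal matrices -/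

theorem transp {m : ℕ} (M : Fin m → Fin m → ℝ)
    (hM : ∀ v : Fin m → ℝ, ∑ i, (∑ l, M i l * v l) ^ 2 = ∑ i, v i ^ 2)
    (v : Fin m → ℝ) (i : Fin m) : v i = ∑ l, M l i * ∑ j, M l j * v j := by
  classical
  have hpol : ∀ v w : Fin m → ℝ, ∑ l, (∑ j, M l j * v j) * (∑ j, M l j * w j) =
      ∑ j, v j * w j := by
    intro v w
    have h1 := hM (fun j => v j + w j)
    have h2 := hM v
    have h3 := hM w
    have h4 : ∀ l, ∑ j, M l j * (v j + w j) = ∑ j, M l j * v j + ∑ j, M l j * w j := by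
      intro l
      rw [← Finset.sum_add_distrib]
      exact Finset.sum_congr rfl fun j _ => by ring
    simp only [h4] at h1
    have h5 : ∀ x y : ℝ, (x + y) ^ 2 = x ^ 2 + 2 * (x * y) + y ^ 2 := fun x y => by ring
    simp only [h5, Finset.sum_add_distrib, ← Finset.mul_sum] at h1
    linarith
  have h1 := hpol v (Pi.single i 1)
  have h2 : ∀ l, ∑ j, M l j * (Pi.single i 1 : Fin m → ℝ) j = M l i := by
    intro l
    rw [Finset.sum_eq_single i]
    · rw [Pi.single_eq_same, mul_one]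
    · intro j _ hj
      rw [Pi.single_eq_of_ne hj, mul_zero]
    · intro h; exact absurd (Finset.mem_univ i) h
  have h3 : ∑ j, v j * (Pi.single i 1 : Fin m → ℝ) j = v i := by
    rw [Finset.sum_eq_single i]
    · rw [Pi.single_eq_same, mul_one]
    · intro j _ hj
      rw [Pi.single_eq_of_ne hj, mul_zero]
    · intro h; exact absurd (Finset.mem_univ i) h
  rw [h3] at h1
  rw [← h1]
  refine Finset.sum_congr rfl fun l _ => ?_
  rw [h2]
  ring

theorem resInd_back {m : ℕ} {k : Type} [Field k] [Algebra k ℝ] (K : IntermediateField k ℝ)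
    (B : ValuationSubring ℝ) (hK : ∀ a ∈ K, a ∈ B) (M : Fin (m + 2) → Fin (m + 2) → ℝ)
    (hMK : ∀ i l, M i l ∈ K)
    (hM : ∀ v : Fin (m + 2) → ℝ, ∑ i, (∑ l, M i l * v l) ^ 2 = ∑ i, v i ^ 2)
    (v : Fin (m + 2) → ℝ) (hv : ∀ i, v i ∈ B)
    (h : ∃ w : Fin (m + 1) → Fin (m + 2), ResInd K B (fun i => v (w i))) :
    ∃ w : Fin (m + 1) → Fin (m + 2), ResInd K B (fun i => -∑ j, M (w i) j * v j) := by
  classical
  obtain ⟨w, hw⟩ := h
  let _ := constAlgebra K B (fun a : K => hK a a.2)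
  have := constTower K B (fun a : K => hK a a.2)
  have hE : ∀ l, -∑ j, M l j * v j ∈ B := fun l =>
    neg_mem (sum_mem fun j _ => mul_mem (hK _ (hMK l j)) (hv j))
  obtain ⟨V, hVd⟩ : ∃ V : Fin (m + 2) → B, ∀ l, (V l : ℝ) = v l :=
    ⟨fun l => ⟨_, hv l⟩, fun l => rfl⟩
  obtain ⟨E, hEd⟩ : ∃ E : Fin (m + 2) → B, ∀ l, (E l : ℝ) = -∑ j, M l j * v j :=
    ⟨fun l => ⟨_, hE l⟩, fun l => rfl⟩
  have h1 : ∀ i, V i = ∑ l, -(algebraMap K B ⟨M l i, hMK l i⟩ * E l) := by
    intro i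
    apply Subtype.ext
    have e1 : ((∑ l, -(algebraMap K B ⟨M l i, hMK l i⟩ * E l) : B) : ℝ) =
        ∑ l, -(M l i * (E l : ℝ)) := by
      rw [AddSubmonoidClass.coe_finsetSum]
      rfl
    rw [e1, hVd]
    simp_rw [hEd]
    rw [transp M hM v i]
    refine Finset.sum_congr rfl fun l _ => ?_
    ring
  have h2 : ∀ i, IsLocalRing.residue B (V i) ∈
      cl K (range fun l => IsLocalRing.residue B (E l)) := by
    intro i
    rw [h1 i, map_sum]
    refine (sum_mem fun l _ => ?_ :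
      _ ∈ clAlg K (range fun l => IsLocalRing.residue B (E l)))
    rw [map_neg, map_mul]
    refine neg_mem (mul_mem ?_ (subset_cl K _ (mem_range_self l)))
    exact (clAlg K (range fun l => IsLocalRing.residue B (E l))).algebraMap_mem
      (⟨M l i, hMK l i⟩ : K)
  have h3 : AlgebraicIndependent K (fun i => IsLocalRing.residue B (V (w i))) := by
    rw [← resInd_iff (K := K) B (fun i => V (w i))]
    simp only [hVd]
    exact hw
  have h4 : ((m + 1 : ℕ) : ℕ∞) ≤ rk K (range fun l => IsLocalRing.residue B (E l)) := by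
    have h5 := rk_of_indep K (fun i => IsLocalRing.residue B (V (w i))) univ
      (h3.comp (fun j : (univ : Set (Fin (m + 1))) => j.1) Subtype.val_injective)
    rw [encard_univ, ENat.card_eq_coe_fintype_card, Fintype.card_fin] at h5
    refine h5.trans (rk_mono K ?_)
    rintro _ ⟨i, rfl⟩
    exact h2 (w i)
  obtain ⟨J, hJ, -, hJr⟩ := exists_basis_index K (fun l => IsLocalRing.residue B (E l))
  rw [hJr] at h4
  have h5 : m + 1 ≤ Fintype.card J := by
    rw [Set.encard_eq_coe_toFinset_card, Set.toFinset_card] at h4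
    exact_mod_cast h4
  obtain ⟨g⟩ : Nonempty (Fin (m + 1) ↪ J) :=
    Function.Embedding.nonempty_of_card_le (by rw [Fintype.card_fin]; exact h5)
  refine ⟨fun i => (g i : Fin (m + 2)), ?_⟩
  have h6 := (resInd_iff (K := K) B (fun i => E (g i))).2 (hJ.comp g g.injective)
  simp only [hEd] at h6
  exact h6

/-! ### The field generated by residually independent elements -/

theorem adjoin_mem {k : Type*} [Field k] [Algebra k ℝ] (B : ValuationSubring ℝ)
    (hkB : ∀ a : k, algebraMap k ℝ a ∈ B) {r : ℕ} (y : Fin r → ℝ) (hy : ResInd k B y) :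
    ∀ a ∈ IntermediateField.adjoin k (range y), a ∈ B := by
  have hev : ∀ f : MvPolynomial (Fin r) k, aeval y f ∈ B := by
    intro f
    induction f using MvPolynomial.induction_on with
    | C a => rw [algHom_C]; exact hkB a
    | add p q hp hq => rw [map_add]; exact add_mem hp hq
    | mul_X p i hp => rw [map_mul, aeval_X]; exact mul_mem hp (hy.1 i)
  intro a ha
  rw [IntermediateField.mem_adjoin_range_iff] at ha
  obtain ⟨f, g, rfl⟩ := ha
  by_cases hg : g = 0
  · rw [hg, map_zero, div_zero]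
    exact zero_mem B
  · rw [div_eq_mul_inv]
    exact mul_mem (hev f) (inv_of_unit B (hy.2 g hg))

theorem not_nu_of_cl {k : Type*} [Field k] [Algebra k ℝ] (B : ValuationSubring ℝ)
    (hkB : ∀ a : k, algebraMap k ℝ a ∈ B) {r : ℕ} (y : Fin r → ℝ) (hy : ResInd k B y) (R : ℝ)
    (hR : R ∈ cl k (range y)) (hR0 : R ≠ 0) : R ∉ B.nonunits := by
  intro hn
  rw [ValuationSubring.mem_nonunits_iff_or] at hn
  rcases hn with h | h
  · exact hR0 h
  · apply h
    rw [mem_cl, ← IntermediateField.isAlgebraic_adjoin_iff] at hR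
    exact alg_mem B (K := IntermediateField.adjoin k (range y))
      (fun a => adjoin_mem B hkB y hy a a.2) _ hR.inv

theorem cl_of_ind {k : Type*} [Field k] [Algebra k ℝ] (B : ValuationSubring ℝ) {r : ℕ}
    (y : Fin r → ℝ) (hy : ResInd k B y) (T : Set ℝ) (hyT : ∀ i, y i ∈ cl k T)
    (hT : rk k T ≤ (r : ℕ∞)) : cl k T ⊆ cl k (range y) := by
  have h1 : AlgebraicIndependent k y := by
    rw [algebraicIndependent_iff]
    intro f hf
    by_contra hf0
    apply hy.2 f hf0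
    rw [hf]
    exact nu_zero B
  have h2 : (r : ℕ∞) ≤ rk k (range y) := by
    have h5 := rk_of_indep k y univ
      (h1.comp (fun j : (univ : Set (Fin r)) => j.1) Subtype.val_injective)
    rw [encard_univ, ENat.card_eq_coe_fintype_card, Fintype.card_fin] at h5
    exact h5
  intro c hc
  by_contra hcon
  have h3 := rk_insert_eq k (range y) c hcon
  have h4 : rk k (insert c (range y)) ≤ rk k T := by
    apply rk_mono
    rintro x (rfl | ⟨i, rfl⟩)
    · exact hc
    · exact hyT i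
  have h5 : (r : ℕ∞) + 1 ≤ (r : ℕ∞) := by
    calc (r : ℕ∞) + 1 ≤ rk k (range y) + 1 := by gcongr
      _ = rk k (insert c (range y)) := h3.symm
      _ ≤ rk k T := h4
      _ ≤ r := hT
  have h6 : ((r + 1 : ℕ) : ℕ∞) ≤ (r : ℕ) := by exact_mod_cast h5
  have := Nat.cast_le.1 h6
  omega

/-! ### The vertex between the two chains -/

theorem vertex {m : ℕ} {k : Type*} [Field k] [Algebra k ℝ] (B : ValuationSubring ℝ)
    (hkB : ∀ a : k, algebraMap k ℝ a ∈ B) (h2B : (2 : ℝ)⁻¹ ∈ B)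
    (q₁ q₂ b e₁ e₂ ν : Fin (m + 2) → ℝ) (s₁ s₂ lam U ρ : ℝ) (Φ : MvPolynomial (Fin (m + 2)) k)
    (hq₁ : ∀ l, q₁ l ∈ B) (hq₂ : ∀ l, q₂ l ∈ B) (he₁ : ∀ l, e₁ l ∈ B)
    (hb₁ : ∀ l, b l = q₁ l + s₁ * e₁ l) (hb₂ : ∀ l, q₂ l = b l + s₂ * e₂ l)
    (hN₁ : ∑ l, e₁ l ^ 2 = lam ^ 2) (hN₂ : ∑ l, e₂ l ^ 2 = lam ^ 2)
    (hlam : lam ≠ 0) (hlamn : lam ∈ B.nonunits) (hU : U ∈ B) (hUn : U ∉ B.nonunits)
    (hsU : s₁ + s₂ = U / lam) (hρ : ∀ l, e₁ l - e₂ l = ρ * ν l)
    (hν : ν = grad Φ b) (hΦ : aeval b Φ = 0) (hν0 : ν ≠ 0)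
    (l₀ : Fin (m + 2)) (hl₀ : e₁ l₀ ∉ B.nonunits) (y : Fin (m + 1) → ℝ) (hy : ResInd k B y)
    (hyi : ∀ i, (∃ l, y i = e₁ l / e₁ l₀) ∨ y i = (∑ l, q₁ l * e₁ l) / e₁ l₀) : False := by
  classical
  have hU0 := ne_of_unit B hUn
  obtain ⟨T, hT⟩ : ∃ T : ℝ, T = s₁ + s₂ := ⟨_, rfl⟩
  have hTU : T = U / lam := hT.trans hsU
  have hT0 : T ≠ 0 := by rw [hTU]; exact div_ne_zero hU0 hlam
  have hTi : T⁻¹ ∈ B.nonunits := by
    have h1 : T⁻¹ = U⁻¹ * lam := by
      rw [hTU]
      field_simp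
    rw [h1]
    exact nu_mul B (inv_of_unit B hUn) hlamn
  obtain ⟨D, hD⟩ : ∃ D : Fin (m + 2) → ℝ, D = fun l => q₂ l - q₁ l := ⟨_, rfl⟩
  have hDB : ∀ l, D l ∈ B := fun l => by rw [hD]; exact sub_mem (hq₂ l) (hq₁ l)
  have hDe : ∀ l, D l = s₁ * e₁ l + s₂ * e₂ l := by
    intro l
    rw [hD]
    simp only [hb₂ l, hb₁ l]
    ring
  obtain ⟨w, hw⟩ : ∃ w : Fin (m + 2) → ℝ, w = fun l => e₁ l - D l * T⁻¹ := ⟨_, rfl⟩
  have hwe : ∀ l, w l - e₁ l ∈ B.nonunits := by
    intro l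
    have h1 : w l - e₁ l = -(D l * T⁻¹) := by rw [hw]; ring
    rw [h1]
    exact nu_neg B (nu_mul B (hDB l) hTi)
  have hwB : ∀ l, w l ∈ B := fun l => mem_of_close B (he₁ l) (hwe l)
  obtain ⟨κ, hκ⟩ : ∃ κ : ℝ, κ = s₂ * ρ * T⁻¹ := ⟨_, rfl⟩
  have hwν : ∀ l, w l = κ * ν l := by
    intro l
    have h1 : T * w l = s₂ * (ρ * ν l) := by
      rw [← hρ l, hw]
      simp only [hDe l]
      field_simp
      rw [hT]
      ring
    have h2 : w l = T⁻¹ * (T * w l) := by
      rw [← mul_assoc, inv_mul_cancel₀ hT0, one_mul]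
    rw [h2, h1, hκ]
    ring
  have hwu : w l₀ ∉ B.nonunits := unit_of_close B hl₀ (hwe l₀)
  have hw0 := ne_of_unit B hwu
  have hκ0 : κ ≠ 0 := by
    intro h
    apply hw0
    rw [hwν, h, zero_mul]
  have hνl0 : ν l₀ ≠ 0 := by
    intro h
    apply hw0
    rw [hwν, h, mul_zero]
  have hratio : ∀ l, ν l / ν l₀ = w l / w l₀ := by
    intro l
    rw [hwν l, hwν l₀]
    field_simp
  have hratio2 : (∑ l, b l * ν l) / ν l₀ = (∑ l, b l * w l) / w l₀ := by
    have h1 : ∑ l, b l * w l = κ * ∑ l, b l * ν l := by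
      rw [Finset.mul_sum]
      exact Finset.sum_congr rfl fun l _ => by rw [hwν l]; ring
    rw [h1, hwν l₀]
    field_simp
  -- the scalar products
  have hsc : ∑ l, b l * w l - ∑ l, q₁ l * e₁ l ∈ B.nonunits := by
    obtain ⟨DD, hDD⟩ : ∃ x : ℝ, x = ∑ l, D l ^ 2 := ⟨_, rfl⟩
    obtain ⟨ED, hED⟩ : ∃ x : ℝ, x = ∑ l, e₁ l * D l := ⟨_, rfl⟩
    obtain ⟨QD, hQD⟩ : ∃ x : ℝ, x = ∑ l, q₁ l * D l := ⟨_, rfl⟩
    obtain ⟨QE, hQE⟩ : ∃ x : ℝ, x = ∑ l, q₁ l * e₁ l := ⟨_, rfl⟩
    have h1 : s₂ ^ 2 * lam ^ 2 = DD - 2 * s₁ * ED + s₁ ^ 2 * lam ^ 2 := by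
      have h2 : ∑ l, (s₂ * e₂ l) ^ 2 = ∑ l, (D l - s₁ * e₁ l) ^ 2 := by
        refine Finset.sum_congr rfl fun l _ => ?_
        rw [hDe l]
        ring
      have h3 : ∑ l, (s₂ * e₂ l) ^ 2 = s₂ ^ 2 * lam ^ 2 := by
        rw [← hN₂, Finset.mul_sum]
        exact Finset.sum_congr rfl fun l _ => by ring
      have h4 : ∑ l, (D l - s₁ * e₁ l) ^ 2 = DD - 2 * s₁ * ED + s₁ ^ 2 * lam ^ 2 := by
        rw [← hN₁, hDD, hED, Finset.mul_sum, Finset.mul_sum, ← Finset.sum_sub_distrib,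
          ← Finset.sum_add_distrib]
        exact Finset.sum_congr rfl fun l _ => by ring
      rw [← h3, h2, h4]
    have h2 : ∑ l, b l * w l = QE + s₁ * lam ^ 2 - QD * T⁻¹ - s₁ * ED * T⁻¹ := by
      rw [← hN₁, hQE, hQD, hED, Finset.mul_sum, Finset.mul_sum, Finset.sum_mul, Finset.sum_mul,
        ← Finset.sum_add_distrib, ← Finset.sum_sub_distrib, ← Finset.sum_sub_distrib]
      refine Finset.sum_congr rfl fun l _ => ?_
      rw [hb₁ l, hw]
      ring
    have h3 : ∑ l, b l * w l - ∑ l, q₁ l * e₁ l =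
        (2 : ℝ)⁻¹ * U * lam - (QD + (2 : ℝ)⁻¹ * DD) * T⁻¹ := by
      rw [h2, ← hQE]
      have h4 : U = T * lam := by
        rw [hTU]
        field_simp
      rw [h4]
      field_simp
      rw [hT]
      linear_combination (-1 : ℝ) * h1
    rw [h3]
    refine nu_sub B (nu_mul B (mul_mem h2B hU) hlamn) (nu_mul B ?_ hTi)
    refine add_mem ?_ (mul_mem h2B ?_)
    · rw [hQD]
      exact sum_mem fun l _ => mul_mem (hq₁ l) (hDB l)
    · rw [hDD]
      exact sum_mem fun l _ => pow_mem (hDB l) 2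
  -- the point and the normal are algebraic over the point
  have hbcl : ∀ l, b l ∈ clAlg k (range b) := fun l => subset_cl k _ (mem_range_self l)
  have hνcl : ∀ l, ν l ∈ clAlg k (range b) := by
    intro l
    rw [hν]
    exact aeval_mem_cl k (fun i => subset_cl k _ (mem_range_self i)) _
  have hνicl : (ν l₀)⁻¹ ∈ clAlg k (range b) := inv_mem_cl k (hνcl l₀)
  -- the new coordinates
  have hex : ∀ i, ∃ y' : ℝ, y' - y i ∈ B.nonunits ∧ y' ∈ cl k (range b) := by
    intro i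
    rcases hyi i with ⟨l, hl⟩ | hl
    · refine ⟨ν l / ν l₀, ?_, ?_⟩
      · rw [hl, hratio l]
        exact div_close B (he₁ l) hl₀ (hwe l) (hwe l₀)
      · rw [div_eq_mul_inv]
        exact (mul_mem (hνcl l) hνicl : _ ∈ clAlg k (range b))
    · refine ⟨(∑ l, b l * ν l) / ν l₀, ?_, ?_⟩
      · rw [hl, hratio2]
        exact div_close B (sum_mem fun l _ => mul_mem (hq₁ l) (he₁ l)) hl₀ hsc (hwe l₀)
      · rw [div_eq_mul_inv]
        exact (mul_mem (sum_mem fun l _ => mul_mem (hbcl l) (hνcl l)) hνicl :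
          _ ∈ clAlg k (range b))
  choose y' hy1 hy2 using hex
  have hy' : ResInd k B y' := by
    let _ := constAlgebra k B hkB
    have := constTower k B hkB
    have hyB' : ∀ i, y' i ∈ B := fun i => mem_of_close B (hy.1 i) (hy1 i)
    obtain ⟨Y, hY⟩ : ∃ Y : Fin (m + 1) → B, ∀ i, (Y i : ℝ) = y i :=
      ⟨fun i => ⟨_, hy.1 i⟩, fun i => rfl⟩
    obtain ⟨Y', hY'⟩ : ∃ Y' : Fin (m + 1) → B, ∀ i, (Y' i : ℝ) = y' i :=
      ⟨fun i => ⟨_, hyB' i⟩, fun i => rfl⟩
    have e1 : (fun i => (Y i : ℝ)) = y := funext hY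
    have e2 : (fun i => (Y' i : ℝ)) = y' := funext hY'
    rw [← e2, resInd_iff (K := k) B Y']
    have e3 : (fun i => IsLocalRing.residue B (Y' i)) = fun i => IsLocalRing.residue B (Y i) := by
      funext i
      rw [← sub_eq_zero, ← map_sub, res_eq_zero_iff]
      change (Y' i : ℝ) - (Y i : ℝ) ∈ B.nonunits
      rw [hY, hY']
      exact hy1 i
    rw [e3, ← resInd_iff (K := k) B Y, e1]
    exact hy
  have hΦ0 : Φ ≠ 0 := by
    intro h0
    apply hν0
    rw [hν, h0]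
    funext l
    unfold grad
    simp
  have hsub := cl_of_ind B y' hy' (range b) hy2 (rk_lt_of_relation k b Φ hΦ0 hΦ)
  obtain ⟨R, hR⟩ : ∃ R : ℝ, R = ∑ l, (ν l / ν l₀) ^ 2 := ⟨_, rfl⟩
  have hRcl : R ∈ cl k (range b) := by
    have h1 : R ∈ clAlg k (range b) := by
      rw [hR]
      refine sum_mem fun l _ => pow_mem ?_ 2
      rw [div_eq_mul_inv]
      exact mul_mem (hνcl l) hνicl
    exact h1
  have hR1 : 1 ≤ R := by
    have h1 : (ν l₀ / ν l₀) ^ 2 ≤ ∑ l, (ν l / ν l₀) ^ 2 :=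
      Finset.single_le_sum (f := fun l => (ν l / ν l₀) ^ 2) (fun l _ => sq_nonneg _)
        (Finset.mem_univ l₀)
    rw [div_self hνl0, one_pow] at h1
    rw [hR]
    exact h1
  have hRn : R ∈ B.nonunits := by
    have hei := inv_of_unit B hl₀
    have h1 : ∑ l, (e₁ l / e₁ l₀) ^ 2 ∈ B.nonunits := by
      have h2 : ∑ l, (e₁ l / e₁ l₀) ^ 2 = (e₁ l₀)⁻¹ ^ 2 * lam * lam := by
        have h3 : ∑ l, (e₁ l / e₁ l₀) ^ 2 = (e₁ l₀)⁻¹ ^ 2 * ∑ l, e₁ l ^ 2 := by
          rw [Finset.mul_sum]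
          exact Finset.sum_congr rfl fun l _ => by rw [div_eq_mul_inv]; ring
        rw [h3, hN₁]
        ring
      rw [h2]
      exact nu_mul B (mul_mem (pow_mem hei 2) (B.nonunits_subset hlamn)) hlamn
    have h2 : R = ∑ l, ((ν l / ν l₀) ^ 2 - (e₁ l / e₁ l₀) ^ 2) + ∑ l, (e₁ l / e₁ l₀) ^ 2 := by
      rw [Finset.sum_sub_distrib, hR]
      ring
    rw [h2]
    refine nu_add B (nu_sum B _ _ fun l _ => ?_) h1
    have h3 : ν l / ν l₀ - e₁ l / e₁ l₀ ∈ B.nonunits := by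
      rw [hratio l]
      exact div_close B (he₁ l) hl₀ (hwe l) (hwe l₀)
    have h4 : e₁ l / e₁ l₀ ∈ B := by
      rw [div_eq_mul_inv]
      exact mul_mem (he₁ l) hei
    have h5 : (ν l / ν l₀) ^ 2 - (e₁ l / e₁ l₀) ^ 2 =
        (ν l / ν l₀ + e₁ l / e₁ l₀) * (ν l / ν l₀ - e₁ l / e₁ l₀) := by ring
    rw [h5]
    exact nu_mul B (add_mem (mem_of_close B h4 h3) h4) h3
  exact not_nu_of_cl B hkB y' hy' R (hsub hRcl) (by linarith) hRn

theorem core2 (h1 : S2_CHAIN) (h2 : S2_LEN) (h3 : S2_PLACE) : S2_CORE2 := by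
  intro m k _ _ K hKc n j P Φ q u t M hj1 hjn hq0 hqn hr0 hrn hrK hu0 hMK hM huM hP hlead hΦ hgrad
    hqs hus htr hsum
  obtain ⟨a, rfl⟩ : ∃ a, j = a + 1 := ⟨j - 1, by omega⟩
  obtain ⟨b, rfl⟩ : ∃ b, n = a + 1 + 1 + b := ⟨n - (a + 1 + 1), by omega⟩
  rw [Nat.add_sub_cancel] at htr
  obtain ⟨lam, B, hlam, hKB, huB, hlamn, hres⟩ := h3 m k K hKc (u 0) hrK hu0
  have hlamn' : lam ∈ B.nonunits := by
    rw [ValuationSubring.mem_nonunits_iff, map_pow] at hlamn
    rw [ValuationSubring.mem_nonunits_iff]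
    exact (pow_lt_one_iff_of_nonneg zero_le two_ne_zero).1 hlamn
  have hsq : ∀ i, 1 ≤ i → i < a + 1 + 1 + b → ∑ l, grad (Φ i) (q i) l ^ 2 ≠ 0 :=
    fun i hi1 hi => sq_sum_ne _ (hgrad i hi1 hi)
  have huni : ∀ i < a + 1 + 1 + b, ∑ l, u i l ^ 2 = 1 := by
    intro i
    induction i with
    | zero => intro _; exact hu0
    | succ i ih =>
      intro hi
      rw [hus i hi, refl_sq _ _ (hsq (i + 1) (by omega) hi)]
      exact ih (by omega)
  obtain ⟨e, he⟩ : ∃ e : ℕ → Fin (m + 2) → ℝ, e = fun i l => lam * u i l := ⟨_, rfl⟩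
  obtain ⟨s, hs⟩ : ∃ s : ℕ → ℝ, s = fun i => t i / lam := ⟨_, rfl⟩
  have hes : ∀ i < a + 1 + 1 + b, ∑ l, e i l ^ 2 = lam ^ 2 := by
    intro i hi
    rw [he]
    simp only [mul_pow]
    rw [← Finset.mul_sum, huni i hi, mul_one]
  have heq : ∀ i < a + 1 + 1 + b, q (i + 1) = fun l => q i l + s i * e i l := by
    intro i hi
    rw [hqs i hi, he, hs]
    funext l
    field_simp
  have her : ∀ i, i + 1 < a + 1 + 1 + b → e (i + 1) = refl (grad (Φ (i + 1)) (q (i + 1))) (e i) := by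
    intro i hi
    have := refl_smul_vec (grad (Φ (i + 1)) (q (i + 1))) (u i) lam
    rw [he]
    change (fun l => lam * u (i + 1) l) = refl _ (fun l => lam * u i l)
    rw [this, hus i hi]
  have heB : ∀ l, e 0 l ∈ B := by intro l; rw [he]; exact huB l
  have hresE : ∃ w : Fin (m + 1) → Fin (m + 2), ResInd K B (fun i => e 0 (w i)) := by
    rw [he]; exact hres
  -- the forward chain
  obtain ⟨F1, F2, F3, -, l₀, hl₀, y, hy, hyi⟩ := h1 m k K B hKB a P Φ q e s hr0 hq0 heB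
    (by rw [hes 0 (by omega)]; exact hlamn) hresE
    (fun i hi1 hi => hP i hi1 (by omega) (by omega))
    (fun i hi1 hi => hlead i hi1 (by omega) (by omega))
    (fun i hi1 hi => hgrad i hi1 (by omega))
    (fun i hi => heq i (by omega)) (fun i hi => her i (by omega))
  -- the backward chain
  have heM : e (a + 1 + b) = fun i => ∑ l, M i l * e 0 l := by
    have h5 : a + 1 + 1 + b - 1 = a + 1 + b := by omega
    rw [h5] at huM
    rw [he]
    change (fun l => lam * u (a + 1 + b) l) = fun i => ∑ l, M i l * (lam * u 0 l)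
    rw [huM]
    funext i
    rw [Finset.mul_sum]
    exact Finset.sum_congr rfl fun l _ => by ring
  have hback0 : ∃ w : Fin (m + 1) → Fin (m + 2),
      ResInd K B (fun i => -e (a + 1 + b) (w i)) := by
    rw [heM]
    exact resInd_back K B hKB M hMK hM (e 0) heB hresE
  obtain ⟨G1, G2, -, -, -⟩ := h1 m k K B hKB b (fun i => P (a + 1 + 1 + b - i))
    (fun i => Φ (a + 1 + 1 + b - i)) (fun i => q (a + 1 + 1 + b - i))
    (fun i l => -e (a + 1 + b - i) l) (fun i => s (a + 1 + b - i)) hrn hqn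
    (by
      intro l
      change -e (a + 1 + b) l ∈ B
      rw [heM]
      exact neg_mem (sum_mem fun m _ => mul_mem (hKB _ (hMK l m)) (heB m)))
    (by
      change ∑ i, (-e (a + 1 + b) i) ^ 2 ∈ B.nonunits
      simp only [neg_sq]
      rw [hes (a + 1 + b) (by omega)]
      exact hlamn)
    hback0
    (fun i hi1 hi => hP _ (by omega) (by omega) (by omega))
    (fun i hi1 hi => hlead _ (by omega) (by omega) (by omega))
    (fun i hi1 hi => hgrad _ (by omega) (by omega))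
    (by
      intro i hi
      obtain ⟨m, hm⟩ : ∃ m, a + 1 + b - (i + 1) = m := ⟨_, rfl⟩
      have a1 : a + 1 + 1 + b - (i + 1) = m + 1 := by omega
      have a2 : a + 1 + 1 + b - i = m + 1 + 1 := by omega
      have a3 : a + 1 + b - i = m + 1 := by omega
      change q (a + 1 + 1 + b - (i + 1)) = fun l => q (a + 1 + 1 + b - i) l +
        s (a + 1 + b - i) * -e (a + 1 + b - i) l
      rw [a1, a2, a3, heq (m + 1) (by omega)]
      funext l
      ring)
    (by
      intro i hi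
      obtain ⟨m, hm⟩ : ∃ m, a + 1 + b - (i + 1) = m := ⟨_, rfl⟩
      have a1 : a + 1 + 1 + b - (i + 1) = m + 1 := by omega
      have a3 : a + 1 + b - i = m + 1 := by omega
      change (fun l => -e (a + 1 + b - (i + 1)) l) =
        refl (grad (Φ (a + 1 + 1 + b - (i + 1))) (q (a + 1 + 1 + b - (i + 1))))
          (fun l => -e (a + 1 + b - i) l)
      rw [a1, a3, hm]
      have b1 : (fun l => -e (m + 1) l) = fun l => (-1) * e (m + 1) l := by
        funext l; ring
      rw [b1, refl_smul_vec, her m (by omega), refl_refl _ _ (hsq (m + 1) (by omega) (by omega))]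
      funext l
      ring)
  have c1 : a + 1 + 1 + b - b = a + 1 + 1 := by omega
  simp only [c1] at G2
  have h2B : (2 : ℝ)⁻¹ ∈ B := hKB _ (inv_mem (ofNat_mem K 2))
  have hkB : ∀ x : k, algebraMap k ℝ x ∈ B := fun x => hKB _ (K.algebraMap_mem x)
  -- the length
  have hT : IsAlgebraic K (∑ i ∈ Finset.range (a + 1 + 1 + b), t i) :=
    h2 (m + 2) k K _ Φ q u t (by omega) hq0
      (fun i => isAlgebraic_algebraMap (⟨q _ i, hqn i⟩ : K)) huni hΦ hqs hus
  have hTB := alg_mem B (fun x : K => hKB x x.2) _ hT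
  have hTB' := alg_mem B (fun x : K => hKB x x.2) _ hT.inv
  obtain ⟨T, hTdef⟩ : ∃ T, T = ∑ i ∈ Finset.range (a + 1 + 1 + b), t i := ⟨_, rfl⟩
  rw [← hTdef] at hTB hTB' hsum
  have hTn : T ∉ B.nonunits := by
    intro hcon
    rw [ValuationSubring.mem_nonunits_iff_or] at hcon
    rcases hcon with h | h
    · exact hsum h
    · exact h hTB'
  -- the total sum
  obtain ⟨σ, hσ⟩ : ∃ σ : ℝ, σ = ∑ i ∈ Finset.range a, s i +
      ∑ i ∈ Finset.range b, s (a + 1 + b - i) := ⟨_, rfl⟩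
  have hσB : σ ∈ B := by rw [hσ]; exact add_mem F1 G1
  have hst : s a + s (a + 1) + σ = T / lam := by
    have d1 : ∑ i ∈ Finset.range b, s (a + 1 + b - i) = ∑ i ∈ Finset.range b, s (a + 1 + 1 + i) := by
      rw [← Finset.sum_range_reflect]
      refine Finset.sum_congr rfl fun i hi => ?_
      rw [Finset.mem_range] at hi
      have : a + 1 + b - (b - 1 - i) = a + 1 + 1 + i := by omega
      rw [this]
    have d2 : T / lam = ∑ i ∈ Finset.range (a + 1 + 1 + b), s i := by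
      rw [hTdef, hs, Finset.sum_div]
    rw [d2, Finset.sum_range_add, Finset.sum_range_succ, Finset.sum_range_succ, hσ, d1]
    ring
  have hUn : T - σ * lam ∉ B.nonunits := by
    refine unit_of_close B hTn ?_
    have h5 : T - σ * lam - T = -(σ * lam) := by ring
    rw [h5]
    exact nu_neg B (nu_mul B hσB hlamn')
  -- the reflection
  obtain ⟨ν, hν⟩ : ∃ ν, ν = grad (Φ (a + 1)) (q (a + 1)) := ⟨_, rfl⟩
  have hν0 : ν ≠ 0 := by rw [hν]; exact hgrad (a + 1) (by omega) (by omega)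
  refine vertex B hkB h2B (q a) (q (a + 1 + 1)) (q (a + 1)) (e a) (e (a + 1)) ν (s a) (s (a + 1))
    lam (T - σ * lam) (2 * (∑ l, e a l * ν l) / (∑ l, ν l ^ 2)) (Φ (a + 1)) F2 G2 F3
    (fun l => congrFun (heq a (by omega)) l) (fun l => congrFun (heq (a + 1) (by omega)) l)
    (hes a (by omega)) (hes (a + 1) (by omega)) hlam hlamn'
    (sub_mem hTB (mul_mem hσB (B.nonunits_subset hlamn'))) hUn ?_ ?_ hν
    (hΦ (a + 1) (by omega) (by omega)) hν0 l₀ hl₀ y hy hyi
  · have h5 : s a + s (a + 1) = T / lam - σ := by linarith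
    rw [h5]
    field_simp
  · intro l
    rw [her a (by omega), ← hν]
    unfold H450Al.refl
    ring

end Pool.Agent.Y474.TB2
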